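import Mathlib

set_option autoImplicit false

/-!
# Two finite `q`-hypergeometric identities in a field
-/

namespace Pool.Agent.P8H19.TO

open Finset

variable {K : Type*} [Field K] (q : K)

/-- `(q^2; q^2)_n` -/
def p (n : ℕ) : K := ∏ i ∈ range n, (1 - q ^ (2 * (i + 1)))

/-- `(q^4; q^4)_n` -/
def p4 (n : ℕ) : K := ∏ i ∈ range n, (1 - q ^ (4 * (i + 1)))

/-- `1 / (q^2; q^2)_(i-1)` -/
def a (i : ℕ) : K := if i = 0 then 0 else (p q (i - 1))⁻¹

/-- partial sums of `∑ q^(n(n+1)/2)` -/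
def s (j : ℕ) : K := ∑ n ∈ range (2 * j), q ^ (n * (n + 1) / 2)

lemma p_zero : p q 0 = 1 := by simp [p]

lemma p4_zero : p4 q 0 = 1 := by simp [p4]

lemma p_succ (n : ℕ) : p q (n + 1) = p q n * (1 - q ^ (2 * (n + 1))) := by
  unfold p; rw [prod_range_succ]

lemma p4_succ (n : ℕ) : p4 q (n + 1) = p4 q n * (1 - q ^ (4 * (n + 1))) := by
  unfold p4; rw [prod_range_succ]

lemma s_zero : s q 0 = 0 := by simp [s]

lemma s_succ (j : ℕ) : s q (j + 1) = s q j + q ^ (j * (2 * j + 1)) * (1 + q ^ (2 * j + 1)) := by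
  unfold s
  rw [show 2 * (j + 1) = 2 * j + 1 + 1 by ring, sum_range_succ, sum_range_succ]
  have h1 : 2 * j * (2 * j + 1) / 2 = j * (2 * j + 1) := by
    rw [show 2 * j * (2 * j + 1) = 2 * (j * (2 * j + 1)) by ring]
    exact Nat.mul_div_cancel_left _ (by norm_num)
  have h2 : (2 * j + 1) * (2 * j + 1 + 1) / 2 = j * (2 * j + 1) + (2 * j + 1) := by
    rw [show (2 * j + 1) * (2 * j + 1 + 1) = 2 * (j * (2 * j + 1) + (2 * j + 1)) by ring]
    exact Nat.mul_div_cancel_left _ (by norm_num)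
  rw [h1, h2, pow_add]
  ring

section
variable {q} (hq : ∀ i : ℕ, 0 < i → 1 - q ^ i ≠ 0)
include hq

lemma p_ne (n : ℕ) : p q n ≠ 0 := by
  unfold p
  rw [prod_ne_zero_iff]
  intro i _
  exact hq _ (by omega)

lemma a_rel (i : ℕ) : a q i = a q (i + 1) * (1 - q ^ (2 * i)) := by
  unfold a
  rcases i with _ | i
  · simp
  · rw [if_neg (by omega), if_neg (by omega)]
    simp only [Nat.add_sub_cancel]
    rw [p_succ, mul_inv, mul_assoc, inv_mul_cancel₀ (hq _ (by omega)), mul_one]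

lemma b_rel (i : ℕ) : (p q i)⁻¹ = (p q (i + 1))⁻¹ * (1 - q ^ (2 * (i + 1))) := by
  rw [p_succ, mul_inv, mul_assoc, inv_mul_cancel₀ (hq _ (by omega)), mul_one]

end

/-- the sum of the Bailey pair -/
def XX (n : ℕ) : K := ∑ i ∈ range n,
  (-1) ^ i * (q ^ (i ^ 2) - q ^ ((i + 2) ^ 2)) * s q (i + 1) * a q (n - i) * (p q (n + 1 + i))⁻¹

/-- first certificate -/
def rho (w y : K) : K := w * q * y⁻¹ * (y * q - 1) * (q ^ 2 * y ^ 2 - (1 + w) * y + 1)

/-- first certificate -/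
def GG (n i : ℕ) : K := (-1) ^ i * q ^ (i ^ 2) * rho q (q ^ (2 * (n + 1))) (q ^ (2 * i)) *
  a q (n + 1 - i) * (p q (n + 1 + i))⁻¹

/-- second certificate -/
def HH (n i : ℕ) : K := (-1) ^ i * q * q ^ (2 * (n + 1)) * q ^ (i * (3 * i - 1)) *
  (1 - q ^ (2 * i)) * a q (n + 1 - i) * (p q (n + i))⁻¹

lemma sum_parts (S G : ℕ → K) (h0 : S 0 = 0) (m : ℕ) :
    ∑ i ∈ range m, S (i + 1) * (G (i + 1) - G i) =
      S m * G m - ∑ i ∈ range m, G i * (S (i + 1) - S i) := by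
  induction m with
  | zero => simp [h0]
  | succ m ih => rw [sum_range_succ, ih, sum_range_succ]; ring

section
variable {q} (hq : ∀ i : ℕ, 0 < i → 1 - q ^ i ≠ 0) (hq0 : q ≠ 0)
include hq hq0

lemma cert1 (n i : ℕ) (hi : i ≤ n) :
    (q ^ (2 * (n + 1)) - q ^ 3) * ((-1) ^ i * (q ^ (i ^ 2) - q ^ ((i + 2) ^ 2)) * a q (n - i) *
        (p q (n + 1 + i))⁻¹) +
      (q ^ 2 - q ^ (2 * (n + 1))) * (q - q ^ (2 * (n + 1))) *
        ((-1) ^ i * (q ^ (i ^ 2) - q ^ ((i + 2) ^ 2)) * a q (n + 1 - i) *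
        (p q (n + 1 + 1 + i))⁻¹) = GG q n (i + 1) - GG q n i := by
  have h1 : a q (n - i) = a q (n + 1 - i) * (1 - q ^ (2 * (n - i))) := by
    rw [a_rel hq, show n - i + 1 = n + 1 - i by omega]
  have h2 : (p q (n + 1 + i))⁻¹ = (p q (n + 1 + 1 + i))⁻¹ * (1 - q ^ (2 * (n + 2 + i))) := by
    rw [b_rel hq, show n + 1 + i + 1 = n + 1 + 1 + i by omega, show n + 1 + 1 + i = n + 2 + i by omega]
  have h3 : (p q (n + 1 + (i + 1)))⁻¹ = (p q (n + 1 + 1 + i))⁻¹ := by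
    rw [show n + 1 + (i + 1) = n + 1 + 1 + i by omega]
  have h4 : n + 1 - (i + 1) = n - i := by omega
  unfold GG
  rw [h4, h3, h1, h2]
  set A := a q (n + 1 - i)
  set B := (p q (n + 1 + 1 + i))⁻¹
  have hy : q ^ (2 * i) ≠ 0 := pow_ne_zero _ hq0
  have e1 : q ^ (2 * (n - i)) = q ^ (2 * (n + 1)) * (q ^ (2 * i))⁻¹ * (q ^ 2)⁻¹ := by
    field_simp
    rw [← pow_add, ← pow_add]
    congr 1
    omega
  have e2 : q ^ (2 * (n + 2 + i)) = q ^ (2 * (n + 1)) * q ^ (2 * i) * q ^ 2 := by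
    rw [← pow_add, ← pow_add]
    congr 1
    omega
  have e3 : q ^ ((i + 2) ^ 2) = q ^ (i ^ 2) * (q ^ (2 * i)) ^ 2 * q ^ 4 := by
    rw [← pow_mul, ← pow_add, ← pow_add]
    congr 1
    ring
  have e4 : q ^ ((i + 1) ^ 2) = q ^ (i ^ 2) * q ^ (2 * i) * q := by
    rw [← pow_add, ← pow_succ]
    congr 1
    ring
  have e5 : q ^ (2 * (i + 1)) = q ^ (2 * i) * q ^ 2 := by
    rw [← pow_add]
    congr 1
  rw [e1, e2, e3, e4, e5, pow_succ (-1 : K) i]
  set y := q ^ (2 * i)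
  set w := q ^ (2 * (n + 1))
  set E := q ^ (i ^ 2)
  set sg : K := (-1) ^ i
  unfold rho
  field_simp
  ring

lemma cert2 (n i : ℕ) (hi : i ≤ n) :
    GG q n i * (s q (i + 1) - s q i) = HH q n (i + 1) - HH q n i := by
  have h1 : a q (n - i) = a q (n + 1 - i) * (1 - q ^ (2 * (n - i))) := by
    rw [a_rel hq, show n - i + 1 = n + 1 - i by omega]
  have h2 : (p q (n + i))⁻¹ = (p q (n + 1 + i))⁻¹ * (1 - q ^ (2 * (n + 1 + i))) := by
    rw [b_rel hq, show n + i + 1 = n + 1 + i by omega]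
  have h3 : (p q (n + (i + 1)))⁻¹ = (p q (n + 1 + i))⁻¹ := by
    rw [show n + (i + 1) = n + 1 + i by omega]
  have h4 : n + 1 - (i + 1) = n - i := by omega
  have hs : s q (i + 1) - s q i = q ^ (i * (2 * i + 1)) * (1 + q ^ (2 * i + 1)) := by
    rw [s_succ]; ring
  unfold HH GG
  rw [h4, h3, h1, h2, hs]
  set A := a q (n + 1 - i)
  set B := (p q (n + 1 + i))⁻¹
  have hy : q ^ (2 * i) ≠ 0 := pow_ne_zero _ hq0
  have e1 : q ^ (2 * (n - i)) = q ^ (2 * (n + 1)) * (q ^ (2 * i))⁻¹ * (q ^ 2)⁻¹ := by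
    field_simp
    rw [← pow_add, ← pow_add]
    congr 1
    omega
  have e2 : q ^ (2 * (n + 1 + i)) = q ^ (2 * (n + 1)) * q ^ (2 * i) := by
    rw [← pow_add]
    congr 1
    omega
  have e3 : q ^ (i ^ 2) * q ^ (i * (2 * i + 1)) = q ^ (i * (3 * i - 1)) * q ^ (2 * i) := by
    rw [← pow_add, ← pow_add]
    congr 1
    rcases i with _ | i
    · simp
    · rw [show 3 * (i + 1) - 1 = 3 * i + 2 by omega]
      ring
  have e4 : q ^ ((i + 1) * (3 * (i + 1) - 1)) = q ^ (i * (3 * i - 1)) * (q ^ (2 * i)) ^ 3 * q ^ 2 := by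
    rw [← pow_mul, ← pow_add, ← pow_add]
    congr 1
    rcases i with _ | i
    · simp
    · rw [show 3 * (i + 1) - 1 = 3 * i + 2 by omega, show 3 * (i + 1 + 1) - 1 = 3 * i + 5 by omega]
      ring
  have e5 : q ^ (2 * (i + 1)) = q ^ (2 * i) * q ^ 2 := by
    rw [← pow_add]
    congr 1
  have e6 : q ^ (2 * i + 1) = q ^ (2 * i) * q := pow_succ _ _
  rw [e1, e2, e4, e5, e6, pow_succ (-1 : K) i]
  set y := q ^ (2 * i)
  set w := q ^ (2 * (n + 1))
  set E := q ^ (i ^ 2)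
  set E2 := q ^ (i * (2 * i + 1))
  set E3 := q ^ (i * (3 * i - 1))
  set sg : K := (-1) ^ i
  have h5 : sg * E * rho q w y * A * B * (E2 * (1 + y * q)) =
      sg * (E * E2) * rho q w y * A * B * (1 + y * q) := by ring
  rw [h5, e3]
  unfold rho
  field_simp
  ring

/-- the recurrence -/
lemma XX_rec (n : ℕ) : (1 - q ^ (2 * n)) * (1 - q ^ (2 * n + 1)) * XX q (n + 1) * q =
    (q - q ^ (2 * n)) * XX q n := by
  have hX0 : XX q n = ∑ i ∈ range (n + 1),
      (-1) ^ i * (q ^ (i ^ 2) - q ^ ((i + 2) ^ 2)) * s q (i + 1) * a q (n - i) *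
        (p q (n + 1 + i))⁻¹ := by
    rw [sum_range_succ, Nat.sub_self]
    simp [XX, a]
  have h1 : (q ^ (2 * (n + 1)) - q ^ 3) * XX q n +
      (q ^ 2 - q ^ (2 * (n + 1))) * (q - q ^ (2 * (n + 1))) * XX q (n + 1) =
      ∑ i ∈ range (n + 1), s q (i + 1) * (GG q n (i + 1) - GG q n i) := by
    rw [hX0, XX, mul_sum, mul_sum, ← sum_add_distrib]
    apply sum_congr rfl
    intro i hi
    rw [← cert1 hq hq0 n i (by rw [mem_range] at hi; omega)]
    ring
  have h2 : ∑ i ∈ range (n + 1), GG q n i * (s q (i + 1) - s q i) = 0 := by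
    rw [sum_congr rfl (fun i hi => cert2 hq hq0 n i (by rw [mem_range] at hi; omega)),
      sum_range_sub]
    have h3 : HH q n (n + 1) = 0 := by simp [HH, a]
    have h4 : HH q n 0 = 0 := by simp [HH]
    rw [h3, h4, sub_zero]
  have h3 : GG q n (n + 1) = 0 := by simp [GG, a]
  rw [sum_parts _ _ (s_zero q), h2, h3] at h1
  have e1 : q ^ (2 * (n + 1)) = q ^ (2 * n) * q ^ 2 := by rw [← pow_add]; rfl
  have e2 : q ^ (2 * n + 1) = q ^ (2 * n) * q := pow_succ _ _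
  rw [e1] at h1
  rw [e2]
  have h4 : q ^ 2 ≠ 0 := pow_ne_zero _ hq0
  apply mul_left_cancel₀ h4
  linear_combination h1

/-- **Bailey pair**: the sum is a product. -/
theorem XX_eq (n : ℕ) : XX q (n + 1) * (p q n * (1 - q ^ (2 * n + 1))) = 1 := by
  induction n with
  | zero =>
    have h1 : (1 : K) - q ^ 1 ≠ 0 := hq 1 one_pos
    have h2 : (1 : K) - q ^ 2 ≠ 0 := hq 2 (by norm_num)
    have h4 : (1 : K) - q ^ 4 ≠ 0 := hq 4 (by norm_num)
    simp only [XX, zero_add, range_one, sum_singleton, pow_zero, one_mul, Nat.sub_zero, a, if_neg,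
      one_ne_zero, not_false_eq_true, Nat.sub_self]
    have hs : s q 1 = 1 + q := by
      rw [show (1 : ℕ) = 0 + 1 by rfl, s_succ, s_zero]; ring
    have hp : p q (1 + 1 + 0) = (1 - q ^ 2) * (1 - q ^ 4) := by
      simp [p, prod_range_succ]
    rw [hs, hp, p_zero]
    have h2' : (1 : K) - q ^ 2 = (1 - q) * (1 + q) := by ring
    have h5 : (1 : K) + q ≠ 0 := by
      intro h; rw [h2', h, mul_zero] at h2; exact h2 rfl
    have h6 : (1 : K) - q ≠ 0 := by simpa using h1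
    norm_num
    rw [h2']
    field_simp
  | succ n ih =>
    have h1 := XX_rec hq hq0 (n + 1)
    have e1 : q - q ^ (2 * (n + 1)) = q * (1 - q ^ (2 * n + 1)) := by
      rw [show 2 * (n + 1) = 2 * n + 1 + 1 by ring, pow_succ]; ring
    rw [e1] at h1
    have h2 : (1 - q ^ (2 * (n + 1))) * (1 - q ^ (2 * (n + 1) + 1)) * XX q (n + 1 + 1) =
        (1 - q ^ (2 * n + 1)) * XX q (n + 1) := by
      apply mul_left_cancel₀ hq0
      linear_combination h1
    rw [p_succ]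
    calc XX q (n + 1 + 1) * (p q n * (1 - q ^ (2 * (n + 1))) * (1 - q ^ (2 * (n + 1) + 1)))
        = p q n * ((1 - q ^ (2 * (n + 1))) * (1 - q ^ (2 * (n + 1) + 1)) * XX q (n + 1 + 1)) := by
          ring
      _ = XX q (n + 1) * (p q n * (1 - q ^ (2 * n + 1))) := by rw [h2]; ring
      _ = 1 := ih

end

end Pool.Agent.P8H19.TO
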