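import Mathlib
import Pool.Agent.P8H19.TO.Fld

set_option autoImplicit false

/-!
# The conjugate pair and the truncated identity
-/

namespace Pool.Agent.P8H19.TO

open Finset

variable {K : Type*} [Field K] (q : K)

/-- terms of the conjugate sum -/
def FF (j : ℕ) : ℕ → K
  | 0 => p4 q j * (p q (2 * j))⁻¹
  | M + 1 => (-1) ^ (M + 1) * q ^ (2 * (M + 1)) * p4 q (M + j) * (1 - q ^ (4 * j)) *
      (p q (M + 1))⁻¹ * (p q (M + 1 + 2 * j))⁻¹

lemma FF_zero (j : ℕ) : FF q j 0 = p4 q j * (p q (2 * j))⁻¹ := rfl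

lemma FF_succ (j M : ℕ) : FF q j (M + 1) =
    (-1) ^ (M + 1) * q ^ (2 * (M + 1)) * p4 q (M + j) * (1 - q ^ (4 * j)) *
      (p q (M + 1))⁻¹ * (p q (M + 1 + 2 * j))⁻¹ := rfl

/-- certificate, `C2 j M` is the value at `M + 1` -/
def C2 (j M : ℕ) : K := (-1) ^ M * q ^ (2 * (M + 1 + 2 * j)) *
  ((1 - q ^ 2) + (1 - q ^ (2 * (2 * j + 1))) * q ^ (2 * (M + 1))) * p4 q (M + j) *
  (p q M)⁻¹ * (p q (M + 2 * j + 2))⁻¹

section
variable {q} (hq : ∀ i : ℕ, 0 < i → 1 - q ^ i ≠ 0)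
include hq

lemma cert3_zero (j : ℕ) : FF q (j + 1) 0 - FF q j 0 = C2 q j 0 := by
  unfold FF C2
  have h1 := p_ne hq (2 * j)
  have h2 := hq (2 * (2 * j + 1)) (by omega)
  have h3 := hq (2 * (2 * j + 1 + 1)) (by omega)
  rw [show 2 * (j + 1) = 2 * j + 1 + 1 by ring, show 0 + 2 * j + 2 = 2 * j + 1 + 1 by ring,
    p_succ, p_succ, p4_succ, p_zero, Nat.zero_add, Nat.zero_add]
  have e1 : q ^ (4 * (j + 1)) = (q ^ (4 * j)) * q ^ 4 := by rw [← pow_add]; congr 1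
  have e2 : q ^ (2 * (2 * j + 1)) = q ^ (4 * j) * q ^ 2 := by rw [← pow_add]; congr 1; ring
  have e3 : q ^ (2 * (2 * j + 1 + 1)) = q ^ (4 * j) * q ^ 4 := by rw [← pow_add]; congr 1; ring
  have e4 : q ^ (2 * (1 + 2 * j)) = q ^ (4 * j) * q ^ 2 := by rw [← pow_add]; congr 1; ring
  rw [e2] at h2
  rw [e3] at h3
  rw [e1, e2, e3, e4]
  set y := q ^ (4 * j)
  field_simp
  ring

lemma cert3_succ (j M : ℕ) : FF q (j + 1) (M + 1) - FF q j (M + 1) = C2 q j (M + 1) - C2 q j M := by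
  rw [FF_succ, FF_succ]
  unfold C2
  have h0 := p_ne hq M
  have h1 := p_ne hq (M + 1 + 2 * j)
  have h4 := hq (2 * (M + 1)) (by omega)
  have h2 := hq (2 * (M + 1 + 2 * j + 1)) (by omega)
  have h3 := hq (2 * (M + 1 + 2 * j + 1 + 1)) (by omega)
  rw [show M + 1 + 2 * (j + 1) = M + 1 + 2 * j + 1 + 1 by ring,
    show M + 1 + 2 * j + 2 = M + 1 + 2 * j + 1 + 1 by ring,
    show M + 2 * j + 2 = M + 1 + 2 * j + 1 by ring,
    show M + (j + 1) = M + j + 1 by ring, show M + 1 + j = M + j + 1 by ring,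
    p_succ q (M + 1 + 2 * j + 1), p_succ q (M + 1 + 2 * j), p_succ q M, p4_succ]
  have e1 : q ^ (4 * (M + j + 1)) = (q ^ (2 * M)) ^ 2 * (q ^ (4 * j)) * q ^ 4 := by
    rw [← pow_mul, ← pow_add, ← pow_add]; congr 1; ring
  have e2 : q ^ (2 * (M + 1 + 2 * j + 1)) = q ^ (2 * M) * q ^ (4 * j) * q ^ 4 := by
    rw [← pow_add, ← pow_add]; congr 1; ring
  have e3 : q ^ (2 * (M + 1 + 2 * j + 1 + 1)) = q ^ (2 * M) * q ^ (4 * j) * q ^ 6 := by
    rw [← pow_add, ← pow_add]; congr 1; ring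
  have e4 : q ^ (2 * (M + 1)) = q ^ (2 * M) * q ^ 2 := by rw [← pow_add]; congr 1
  have e5 : q ^ (2 * (M + 1 + 1)) = q ^ (2 * M) * q ^ 4 := by rw [← pow_add]; congr 1
  have e6 : q ^ (4 * (j + 1)) = q ^ (4 * j) * q ^ 4 := by rw [← pow_add]; congr 1
  have e7 : q ^ (2 * (2 * j + 1)) = q ^ (4 * j) * q ^ 2 := by rw [← pow_add]; congr 1; ring
  have e8 : q ^ (2 * (M + 1 + 1 + 2 * j)) = q ^ (2 * M) * q ^ (4 * j) * q ^ 4 := by
    rw [← pow_add, ← pow_add]; congr 1; ring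
  have e9 : q ^ (2 * (M + 1 + 2 * j)) = q ^ (2 * M) * q ^ (4 * j) * q ^ 2 := by
    rw [← pow_add, ← pow_add]; congr 1; ring
  rw [e2] at h2
  rw [e3] at h3
  rw [e4] at h4
  rw [e1, e2, e3, e5, e6, e7, e8, e9, e4, pow_succ (-1 : K) M]
  set y := q ^ (4 * j)
  set x := q ^ (2 * M)
  set sg : K := (-1) ^ M
  clear e1 e2 e3 e4 e5 e6 e7 e8 e9
  obtain ⟨d2, hd2⟩ : ∃ d, d = 1 - x * y * q ^ 4 := ⟨_, rfl⟩
  obtain ⟨d3, hd3⟩ : ∃ d, d = 1 - x * y * q ^ 6 := ⟨_, rfl⟩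
  obtain ⟨d4, hd4⟩ : ∃ d, d = 1 - x * q ^ 2 := ⟨_, rfl⟩
  rw [← hd2] at h2 ⊢
  rw [← hd3] at h3 ⊢
  rw [← hd4] at h4 ⊢
  field_simp
  rw [hd2, hd3, hd4]
  ring

lemma PP_step (j L : ℕ) :
    ∑ M ∈ range (L + 1), FF q (j + 1) M - ∑ M ∈ range (L + 1), FF q j M = C2 q j L := by
  induction L with
  | zero => simpa using cert3_zero hq j
  | succ L ih =>
    rw [sum_range_succ _ (L + 1), sum_range_succ _ (L + 1)]
    have := cert3_succ hq j L
    linear_combination ih + this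

/-- **the conjugate pair**, truncated -/
theorem PP_eq (j L : ℕ) :
    ∑ M ∈ range (L + 1), FF q j M = 1 + ∑ i ∈ range j, C2 q i L := by
  induction j with
  | zero =>
    rw [sum_range_succ']
    have h1 : ∑ M ∈ range L, FF q 0 (M + 1) = 0 := by
      apply sum_eq_zero
      intro M _
      simp [FF]
    rw [h1]
    simp [FF, p4_zero, p_zero]
  | succ j ih =>
    rw [sum_range_succ (fun i => C2 q i L) j, ← add_assoc, ← ih]
    have := PP_step hq j L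
    linear_combination this

end

/-- the terms of the theta-like double series -/
def tt (j : ℕ) : K := q ^ (j ^ 2) * s q j

/-- the terms of the basic series -/
noncomputable def UU (m : ℕ) : K :=
  (-1) ^ m * (p4 q m * (p q m)⁻¹) * q ^ (2 * m + 1) * (1 - q ^ (2 * m + 1))⁻¹

section
variable {q} (hq : ∀ i : ℕ, 0 < i → 1 - q ^ i ≠ 0) (hq0 : q ≠ 0)
include hq hq0

lemma UU_eq (m : ℕ) : UU q m = ∑ i ∈ range (m + 1), tt q (i + 1) * FF q (i + 1) (m - i) := by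
  have h1 := XX_eq hq hq0 m
  have h2 := p_ne hq m
  have h3 := hq (2 * m + 1) (by omega)
  have h4 : (p q m)⁻¹ * (1 - q ^ (2 * m + 1))⁻¹ = XX q (m + 1) := by
    field_simp
    linear_combination -h1
  have h5 : UU q m = (-1) ^ m * p4 q m * q ^ (2 * m + 1) * XX q (m + 1) := by
    rw [← h4]; unfold UU; ring
  rw [h5, XX, mul_sum]
  apply sum_congr rfl
  intro i hi
  rw [mem_range] at hi
  have hi' : i ≤ m := by omega
  obtain ⟨M, rfl⟩ := Nat.exists_eq_add_of_le hi'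
  have e0 : i + M - i = M := by omega
  have e1 : a q (i + M + 1 - i) = (p q M)⁻¹ := by
    unfold a
    rw [show i + M + 1 - i = M + 1 by omega, if_neg (by omega)]
    rfl
  have e2 : i + M + 1 + 1 + i = M + 2 * (i + 1) := by ring
  rw [e0, e1, e2]
  have e3 : q ^ ((i + 2) ^ 2) = q ^ (i ^ 2) * q ^ (4 * (i + 1)) := by
    rw [← pow_add]; congr 1; ring
  have e4 : q ^ (2 * (i + M) + 1) * q ^ (i ^ 2) = q ^ ((i + 1) ^ 2) * q ^ (2 * M) := by
    rw [← pow_add, ← pow_add]; congr 1; ring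
  have e5 : (-1 : K) ^ (i + M) * (-1) ^ i = (-1) ^ M := by
    rw [← pow_add, show i + M + i = 2 * i + M by ring, pow_add, pow_mul]
    simp
  rw [e3]
  have e6 : (-1 : K) ^ (i + M) * p4 q (i + M) * q ^ (2 * (i + M) + 1) *
      ((-1) ^ i * (q ^ (i ^ 2) - q ^ (i ^ 2) * q ^ (4 * (i + 1))) * s q (i + 1) * (p q M)⁻¹ *
        (p q (M + 2 * (i + 1)))⁻¹) =
      ((-1 : K) ^ (i + M) * (-1) ^ i) * (q ^ (2 * (i + M) + 1) * q ^ (i ^ 2)) * p4 q (i + M) *
      (1 - q ^ (4 * (i + 1))) * s q (i + 1) * (p q M)⁻¹ * (p q (M + 2 * (i + 1)))⁻¹ := by ring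
  rw [e6, e4, e5]
  unfold tt
  rcases M with _ | M
  · simp only [FF, Nat.add_zero, Nat.mul_zero, pow_zero, p_zero, Nat.zero_add]
    rw [p4_succ]
    ring
  · simp only [FF]
    rw [show i + (M + 1) = M + (i + 1) by ring]
    ring

/-- **The truncated identity.** -/
theorem trunc (N : ℕ) : ∑ m ∈ range N, UU q m = ∑ i ∈ range N, tt q (i + 1) +
    ∑ i ∈ range N, tt q (i + 1) * ∑ l ∈ range (i + 1), C2 q l (N - i - 1) := by
  rw [sum_congr rfl (fun m _ => UU_eq hq hq0 m)]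
  rw [sum_range_diag_flip N (fun i k => tt q (i + 1) * FF q (i + 1) k), ← sum_add_distrib]
  apply sum_congr rfl
  intro i hi
  rw [mem_range] at hi
  rw [← mul_sum, show N - i = (N - i - 1) + 1 by omega, PP_eq hq, Nat.add_sub_cancel]
  ring

end

end Pool.Agent.P8H19.TO
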