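import Mathlib
import Pool.Agent.P8H19.TO.Fld2

set_option autoImplicit false

/-!
# The series `T_o` modulo `2`
-/

namespace Pool.Agent.P8H19.TO

open Finset PowerSeries

/-- The `m`-th term `q^(2m) (-q;q)_(2m) / (q;q^2)_(m+1)` of the series `T_o(q)`. -/
noncomputable def toTerm (m : ℕ) : PowerSeries ℤ :=
  X ^ (2 * m) * (∏ k ∈ range (2 * m), (1 + X ^ (k + 1))) *
    invOfUnit (∏ k ∈ range (m + 1), (1 - X ^ (2 * k + 1))) 1

/-- The coefficient `t_o(n)` of `q^n` in `T_o(q)`, the sum of the coefficients of `q^n` in the terms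
(those of index `m > n` are divisible by `q^(2m)` and do not contribute). -/
noncomputable def tO (n : ℕ) : ℤ := ∑ m ∈ range (n + 1), coeff n (toTerm m)

/-- power series over the field with two elements -/
abbrev R : Type := PowerSeries (ZMod 2)

/-- the fraction field -/
abbrev K : Type := FractionRing R

/-- the variable in the fraction field -/
noncomputable def qK : K := algebraMap R K X

lemma alg_inj : Function.Injective (algebraMap R K) := IsFractionRing.injective R K

lemma one_sub_ne {i : ℕ} (hi : 0 < i) : (1 : R) - X ^ i ≠ 0 := by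
  intro h
  have h1 := congrArg (constantCoeff (R := ZMod 2)) h
  simp [hi.ne'] at h1

lemma hq : ∀ i : ℕ, 0 < i → 1 - qK ^ i ≠ 0 := by
  intro i hi h
  apply one_sub_ne hi
  apply alg_inj
  rw [map_sub, map_one, map_pow, map_zero]
  exact h

lemma hq0 : qK ≠ 0 := by
  intro h
  have h1 : (X : R) = 0 := by
    apply alg_inj
    rw [map_zero]
    exact h
  exact PowerSeries.X_ne_zero h1

lemma unit_inv (f : R) (hf : constantCoeff f = 1) : ∃ g : R, (algebraMap R K f)⁻¹ = algebraMap R K g := by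
  have h1 : f * f⁻¹ = 1 := PowerSeries.mul_inv_cancel f (by rw [hf]; exact one_ne_zero)
  refine ⟨f⁻¹, ?_⟩
  have h2 : algebraMap R K f * algebraMap R K f⁻¹ = 1 := by rw [← map_mul, h1, map_one]
  exact (eq_inv_of_mul_eq_one_right h2).symm

/-- elements divisible by `q^N` -/
def isO (N : ℕ) (x : K) : Prop := ∃ f : R, x = algebraMap R K (X ^ N * f)

lemma isO_mono {N N' : ℕ} (h : N' ≤ N) {x : K} (hx : isO N x) : isO N' x := by
  obtain ⟨f, rfl⟩ := hx
  refine ⟨X ^ (N - N') * f, ?_⟩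
  rw [← mul_assoc, ← pow_add, Nat.add_sub_cancel' h]

lemma isO_mul {M N : ℕ} {x y : K} (hx : isO M x) (hy : isO N y) : isO (M + N) (x * y) := by
  obtain ⟨f, rfl⟩ := hx
  obtain ⟨g, rfl⟩ := hy
  refine ⟨f * g, ?_⟩
  rw [← map_mul, pow_add]
  congr 1
  ring

lemma isO_mul0 {N : ℕ} {x y : K} (hx : isO N x) (hy : isO 0 y) : isO N (x * y) := by
  have := isO_mul hx hy
  rwa [Nat.add_zero] at this

lemma isO_add {N : ℕ} {x y : K} (hx : isO N x) (hy : isO N y) : isO N (x + y) := by
  obtain ⟨f, rfl⟩ := hx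
  obtain ⟨g, rfl⟩ := hy
  exact ⟨f + g, by rw [← map_add, mul_add]⟩

lemma isO_sub {N : ℕ} {x y : K} (hx : isO N x) (hy : isO N y) : isO N (x - y) := by
  obtain ⟨f, rfl⟩ := hx
  obtain ⟨g, rfl⟩ := hy
  exact ⟨f - g, by rw [← map_sub, mul_sub]⟩

lemma isO_zero (N : ℕ) : isO N (0 : K) := ⟨0, by simp⟩

lemma isO_one : isO 0 (1 : K) := ⟨1, by simp⟩

lemma isO_pow (N : ℕ) : isO N (qK ^ N) := ⟨1, by rw [mul_one, map_pow]; rfl⟩

lemma isO_pow0 (N : ℕ) : isO 0 (qK ^ N) := isO_mono (Nat.zero_le _) (isO_pow N)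

lemma isO_sum {ι : Type*} {N : ℕ} (t : Finset ι) (f : ι → K) (h : ∀ i ∈ t, isO N (f i)) :
    isO N (∑ i ∈ t, f i) := by
  classical
  induction t using Finset.induction_on with
  | empty => simpa using isO_zero N
  | insert i t hi ih =>
    rw [Finset.sum_insert hi]
    exact isO_add (h i (mem_insert_self _ _)) (ih fun j hj => h j (mem_insert_of_mem hj))

lemma isO_prod0 {ι : Type*} (t : Finset ι) (f : ι → K) (h : ∀ i ∈ t, isO 0 (f i)) :
    isO 0 (∏ i ∈ t, f i) := by
  classical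
  induction t using Finset.induction_on with
  | empty => simpa using isO_one
  | insert i t hi ih =>
    rw [Finset.prod_insert hi]
    exact isO_mul0 (h i (mem_insert_self _ _)) (ih fun j hj => h j (mem_insert_of_mem hj))

lemma neg_one_K : (-1 : K) = 1 := by
  have h2 : (2 : R) = 0 := by
    have h : (2 : ZMod 2) = 0 := rfl
    have h3 : (2 : R) = C (2 : ZMod 2) := (map_ofNat C 2).symm
    rw [h3, h, map_zero]
  have h3 : (2 : K) = 0 := by
    have := congrArg (algebraMap R K) h2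
    rwa [map_zero, map_ofNat] at this
  linear_combination -h3

lemma isO_sign (m : ℕ) : isO 0 ((-1 : K) ^ m) := by
  rw [neg_one_K, one_pow]; exact isO_one

lemma isO_p4 (n : ℕ) : isO 0 (p4 qK n) := by
  unfold p4
  exact isO_prod0 _ _ fun i _ => isO_sub isO_one (isO_pow0 _)

lemma isO_pinv (n : ℕ) : isO 0 (p qK n)⁻¹ := by
  have h1 : p qK n = algebraMap R K (∏ i ∈ range n, (1 - X ^ (2 * (i + 1)))) := by
    unfold p qK
    rw [map_prod]
    apply prod_congr rfl
    intro i _
    rw [map_sub, map_one, map_pow]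
  obtain ⟨g, hg⟩ := unit_inv (∏ i ∈ range n, (1 - X ^ (2 * (i + 1)))) (by
    rw [map_prod]
    apply prod_eq_one
    intro i _
    simp)
  exact ⟨g, by rw [h1, hg, pow_zero, one_mul]⟩

lemma isO_s (j : ℕ) : isO 0 (s qK j) := by
  unfold s
  exact isO_sum _ _ fun i _ => isO_pow0 _

lemma isO_tt (j : ℕ) : isO (j ^ 2) (tt qK j) := by
  unfold tt
  exact isO_mul0 (isO_pow _) (isO_s j)

lemma isO_C2 (j M : ℕ) : isO (2 * (M + 1 + 2 * j)) (C2 qK j M) := by
  unfold C2
  have h1 : isO (2 * (M + 1 + 2 * j)) ((-1 : K) ^ M * qK ^ (2 * (M + 1 + 2 * j))) := by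
    have := isO_mul (isO_sign M) (isO_pow (2 * (M + 1 + 2 * j)))
    rwa [Nat.zero_add] at this
  apply isO_mul0 _ (isO_pinv _)
  apply isO_mul0 _ (isO_pinv _)
  apply isO_mul0 _ (isO_p4 _)
  apply isO_mul0 h1
  apply isO_add (isO_sub isO_one (isO_pow0 _))
  exact isO_mul0 (isO_sub isO_one (isO_pow0 _)) (isO_pow0 _)

/-- the tail of the truncated identity -/
lemma tail_isO (N : ℕ) : isO (2 * N + 1)
    (∑ i ∈ range N, tt qK (i + 1) * ∑ l ∈ range (i + 1), C2 qK l (N - i - 1)) := by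
  apply isO_sum
  intro i hi
  rw [mem_range] at hi
  rw [mul_sum]
  apply isO_sum
  intro l _
  refine isO_mono ?_ (isO_mul (isO_tt (i + 1)) (isO_C2 l (N - i - 1)))
  obtain ⟨d, rfl⟩ := Nat.exists_eq_add_of_lt hi
  rw [show i + d + 1 - i - 1 = d by omega]
  nlinarith [sq_nonneg i]

/-! ### The terms -/

/-- the term modulo two, times `q` -/
noncomputable def rT (m : ℕ) : R := X * PowerSeries.map (Int.castRingHom (ZMod 2)) (toTerm m)

lemma prod_split {F : Type*} [CommRing F] (x : F) (m : ℕ) :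
    ∏ k ∈ range (2 * m), (1 - x ^ (k + 1)) =
      (∏ k ∈ range m, (1 - x ^ (2 * k + 1))) * ∏ k ∈ range m, (1 - x ^ (2 * (k + 1))) := by
  induction m with
  | zero => simp
  | succ m ih =>
    rw [show 2 * (m + 1) = 2 * m + 1 + 1 by ring, prod_range_succ, prod_range_succ, ih,
      prod_range_succ, prod_range_succ]
    rw [show 2 * m + 1 + 1 = 2 * (m + 1) by ring]
    ring

lemma alg_rT (m : ℕ) : algebraMap R K (rT m) = UU qK m := by
  have hD : PowerSeries.map (Int.castRingHom (ZMod 2))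
      (invOfUnit (∏ k ∈ range (m + 1), (1 - X ^ (2 * k + 1))) 1) *
      (∏ k ∈ range (m + 1), (1 - X ^ (2 * k + 1)) : R) = 1 := by
    have h1 : (∏ k ∈ range (m + 1), (1 - X ^ (2 * k + 1)) : PowerSeries ℤ) *
        invOfUnit (∏ k ∈ range (m + 1), (1 - X ^ (2 * k + 1))) 1 = 1 := by
      apply PowerSeries.mul_invOfUnit
      rw [map_prod]
      simp
    have h2 := congrArg (PowerSeries.map (Int.castRingHom (ZMod 2))) h1
    rw [map_mul, map_prod, map_one] at h2
    simp only [map_sub, map_one, map_pow, PowerSeries.map_X] at h2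
    rw [mul_comm]
    exact h2
  have hplus : ∀ x : K, 1 + x = 1 - x := by
    intro x
    have := neg_one_K
    linear_combination (-x) * this
  have h1 : rT m = X ^ (2 * m + 1) * (∏ k ∈ range (2 * m), (1 + X ^ (k + 1))) *
      PowerSeries.map (Int.castRingHom (ZMod 2))
        (invOfUnit (∏ k ∈ range (m + 1), (1 - X ^ (2 * k + 1))) 1) := by
    unfold rT toTerm
    rw [map_mul, map_mul, map_prod, map_pow, PowerSeries.map_X]
    simp only [map_add, map_one, map_pow, PowerSeries.map_X]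
    ring
  have h2 : algebraMap R K (PowerSeries.map (Int.castRingHom (ZMod 2))
        (invOfUnit (∏ k ∈ range (m + 1), (1 - X ^ (2 * k + 1))) 1)) =
      (∏ k ∈ range (m + 1), (1 - qK ^ (2 * k + 1)))⁻¹ := by
    apply eq_inv_of_mul_eq_one_left
    have h3 := congrArg (algebraMap R K) hD
    rw [map_mul, map_prod, map_one] at h3
    simp only [map_sub, map_one, map_pow] at h3
    exact h3
  have hne : (∏ k ∈ range m, (1 - qK ^ (2 * k + 1))) ≠ 0 := by
    rw [prod_ne_zero_iff]
    intro k _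
    exact hq _ (by omega)
  have hp4 : p4 qK m = p qK m * p qK m := by
    unfold p4 p
    rw [← prod_mul_distrib]
    apply prod_congr rfl
    intro i _
    have := hplus (qK ^ (2 * (i + 1)))
    calc 1 - qK ^ (4 * (i + 1)) = (1 + qK ^ (2 * (i + 1))) * (1 - qK ^ (2 * (i + 1))) := by
          rw [show 4 * (i + 1) = 2 * (i + 1) + 2 * (i + 1) by ring, pow_add]; ring
      _ = _ := by rw [this]
  rw [h1, map_mul, map_mul, h2, map_prod, map_pow]
  simp only [map_add, map_one, map_pow]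
  change qK ^ (2 * m + 1) * (∏ x ∈ range (2 * m), (1 + qK ^ (x + 1))) *
    (∏ k ∈ range (m + 1), (1 - qK ^ (2 * k + 1)))⁻¹ = UU qK m
  rw [prod_congr rfl (fun k _ => hplus (qK ^ (k + 1))), prod_split, prod_range_succ]
  unfold UU
  rw [neg_one_K, one_pow, hp4]
  have hpm := p_ne hq m
  have h5 := hq (2 * m + 1) (by omega)
  change qK ^ (2 * m + 1) * ((∏ k ∈ range m, (1 - qK ^ (2 * k + 1))) * p qK m) * _ = _
  field_simp

/-- the theta-like terms -/
noncomputable def rt (i : ℕ) : R := X ^ ((i + 1) ^ 2) * ∑ k ∈ range (2 * (i + 1)), X ^ (k * (k + 1) / 2)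

lemma alg_rt (i : ℕ) : algebraMap R K (rt i) = tt qK (i + 1) := by
  unfold rt tt s qK
  rw [map_mul, map_sum, map_pow]
  simp only [map_pow]

theorem series_eq (N : ℕ) : ∃ f : R, ∑ m ∈ range N, rT m = ∑ i ∈ range N, rt i + X ^ (2 * N + 1) * f := by
  obtain ⟨f, hf⟩ := tail_isO N
  refine ⟨f, ?_⟩
  apply alg_inj
  rw [map_sum, map_add, map_sum, ← hf]
  rw [sum_congr rfl (fun m _ => alg_rT m), sum_congr rfl (fun i _ => alg_rt i)]
  exact trunc hq hq0 N

lemma coeff_tO (n : ℕ) : ((tO n : ℤ) : ZMod 2) = ∑ m ∈ range (n + 1), coeff (n + 1) (rT m) := by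
  unfold tO rT
  push_cast
  apply sum_congr rfl
  intro m _
  rw [mul_comm, PowerSeries.coeff_succ_mul_X, PowerSeries.coeff_map]
  simp

theorem tO_eq (n : ℕ) : ((tO n : ℤ) : ZMod 2) = ∑ i ∈ range (n + 1), ∑ k ∈ range (2 * (i + 1)),
    if (i + 1) ^ 2 + k * (k + 1) / 2 = n + 1 then (1 : ZMod 2) else 0 := by
  obtain ⟨f, hf⟩ := series_eq (n + 1)
  have h1 := congrArg (coeff (R := ZMod 2) (n + 1)) hf
  rw [map_sum, map_add, map_sum] at h1
  rw [coeff_tO, h1]
  have h2 : coeff (R := ZMod 2) (n + 1) (X ^ (2 * (n + 1) + 1) * f) = 0 := by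
    rw [PowerSeries.coeff_X_pow_mul', if_neg (by omega)]
  rw [h2, add_zero]
  apply sum_congr rfl
  intro i _
  unfold rt
  rw [mul_sum, map_sum]
  apply sum_congr rfl
  intro k _
  rw [← pow_add, PowerSeries.coeff_X_pow]
  by_cases h : (i + 1) ^ 2 + k * (k + 1) / 2 = n + 1
  · rw [if_pos h, if_pos h.symm]
  · rw [if_neg h, if_neg (fun h' => h h'.symm)]

end Pool.Agent.P8H19.TO
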