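import Mathlib
import Pool.Agent.P8H19.TO.Ser

set_option autoImplicit false

/-!
# Counting representations
-/

namespace Pool.Agent.P8H19.TO

open Finset

lemma tri (k : ℕ) : 2 * (k * (k + 1) / 2) = k * (k + 1) :=
  Nat.mul_div_cancel' (Nat.even_mul_succ_self k).two_dvd

lemma rep_iff (n i k : ℕ) : (i + 1) ^ 2 + k * (k + 1) / 2 = n + 1 ↔
    (2 * k + 1) ^ 2 + 2 * (2 * (i + 1)) ^ 2 = 8 * n + 9 := by
  have h := tri k
  constructor
  · intro h1
    nlinarith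
  · intro h1
    nlinarith

/-- the representations with `a < 2 b` -/
def reps (n : ℕ) : Set (ℕ × ℕ) := {x | x.1 ^ 2 + 2 * x.2 ^ 2 = 8 * n + 9 ∧ x.1 < 2 * x.2}

/-- the index set -/
def idx (n : ℕ) : Finset (Σ _ : ℕ, ℕ) :=
  ((range (n + 1)).sigma (fun i => range (2 * (i + 1)))).filter
    (fun x => (x.1 + 1) ^ 2 + x.2 * (x.2 + 1) / 2 = n + 1)

lemma reps_eq (n : ℕ) : reps n =
    ((idx n).image (fun x => (2 * x.2 + 1, 2 * (x.1 + 1))) : Finset (ℕ × ℕ)) := by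
  ext ⟨a, b⟩
  simp only [reps, Set.mem_ofPred_eq, coe_image, Set.mem_image, mem_coe, idx, mem_filter, mem_sigma,
    mem_range, Prod.mk.injEq]
  constructor
  · rintro ⟨h1, h2⟩
    -- parity
    have ha : a % 2 = 1 := by
      rcases Nat.mod_two_eq_zero_or_one a with h | h
      · exfalso
        obtain ⟨c, rfl⟩ : ∃ c, a = 2 * c := ⟨a / 2, by omega⟩
        have : 2 * (2 * c ^ 2 + b ^ 2) = 8 * n + 9 := by nlinarith
        omega
      · exact h
    obtain ⟨k, rfl⟩ : ∃ k, a = 2 * k + 1 := ⟨a / 2, by omega⟩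
    have ht := tri k
    have hb : b % 2 = 0 := by
      rcases Nat.mod_two_eq_zero_or_one b with h | h
      · exact h
      · exfalso
        obtain ⟨c, rfl⟩ : ∃ c, b = 2 * c + 1 := ⟨b / 2, by omega⟩
        have h3 : 8 * (k * (k + 1) / 2) + 8 * (c ^ 2 + c) + 3 = 8 * n + 9 := by nlinarith
        omega
    obtain ⟨j, rfl⟩ : ∃ j, b = 2 * j := ⟨b / 2, by omega⟩
    have hj : 1 ≤ j := by omega
    obtain ⟨i, rfl⟩ : ∃ i, j = i + 1 := ⟨j - 1, by omega⟩
    refine ⟨⟨i, k⟩, ⟨⟨?_, ?_⟩, ?_⟩, rfl, rfl⟩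
    · change i < n + 1
      nlinarith
    · change k < 2 * (i + 1)
      omega
    · exact (rep_iff n i k).2 h1
  · rintro ⟨⟨i, k⟩, ⟨⟨_, h2⟩, h3⟩, h4, h5⟩
    dsimp only at h2 h3 h4 h5
    subst h4 h5
    exact ⟨(rep_iff n i k).1 h3, by omega⟩

lemma ncard_reps (n : ℕ) : (reps n).ncard = (idx n).card := by
  rw [reps_eq, Set.ncard_coe_finset, card_image_of_injective]
  rintro ⟨i, k⟩ ⟨i', k'⟩ h
  simp only [Prod.mk.injEq] at h
  obtain ⟨h1, h2⟩ := h
  have e1 : k = k' := by omega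
  have e2 : i = i' := by omega
  subst e1 e2
  rfl

theorem tO_reps (n : ℕ) : ((tO n : ℤ) : ZMod 2) = ((reps n).ncard : ZMod 2) := by
  rw [tO_eq, ncard_reps, idx, card_filter]
  push_cast
  rw [sum_sigma]

end Pool.Agent.P8H19.TO
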